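import Mathlib

/-!
Copies of a fixed graph with five vertices in 2-degenerate graphs.
-/

set_option autoImplicit false

namespace Pool.Agent.P8H55.Degen

open Finset

/-- `K₄` minus an edge `12` on `{1,2,3,4}`, together with a vertex `0` joined to `1` and `2`. -/
def hAdj (i j : Fin 5) : Bool :=
  match i.val, j.val with
  | 0, 1 => true
  | 1, 0 => true
  | 0, 2 => true
  | 2, 0 => true
  | 1, 3 => true
  | 3, 1 => true
  | 1, 4 => true
  | 4, 1 => true
  | 2, 3 => true
  | 3, 2 => true
  | 2, 4 => true
  | 4, 2 => true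
  | 3, 4 => true
  | 4, 3 => true
  | _, _ => false

def H : SimpleGraph (Fin 5) where
  Adj i j := hAdj i j = true
  symm := ⟨by decide⟩
  loopless := ⟨by decide⟩

instance : DecidableRel H.Adj := fun i j => inferInstanceAs (Decidable (hAdj i j = true))

theorem H_degen : ∀ S : Finset (Fin 5), S.Nonempty →
    ∃ v ∈ S, {w : Fin 5 | w ∈ S ∧ H.Adj v w}.ncard ≤ 2 := by
  have key : ∀ S : Finset (Fin 5), S.Nonempty → ∃ v ∈ S, (S.filter (fun w => H.Adj v w)).card ≤ 2 := by
    decide +kernel
  intro S hS
  obtain ⟨v, hv, h⟩ := key S hS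
  refine ⟨v, hv, ?_⟩
  rw [← Set.ncard_coe_finset] at h
  convert h using 2
  ext w
  simp

/-- the flap `{1,2,3,4}` -/
def A : H.Subgraph where
  verts := {v | v ≠ 0}
  Adj u v := H.Adj u v ∧ u ≠ 0 ∧ v ≠ 0
  adj_sub := fun h => h.1
  edge_vert := fun h => h.2.1
  symm := ⟨fun _ _ h => ⟨h.1.symm, h.2.2, h.2.1⟩⟩

/-- the flap `{0,1,2}` -/
def B : H.Subgraph where
  verts := {v | v = 0 ∨ v = 1 ∨ v = 2}
  Adj u v := H.Adj u v ∧ (u = 0 ∨ v = 0)
  adj_sub := fun h => h.1
  edge_vert := by
    intro u v h
    revert h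
    revert u v
    decide
  symm := ⟨fun _ _ h => ⟨h.1.symm, h.2.symm⟩⟩

def SepAB (A B : H.Subgraph) : Prop :=
  A ⊔ B = ⊤ ∧ (∀ u v, A.Adj u v → ¬ B.Adj u v) ∧
    (∃ v, v ∈ A.verts ∧ v ∉ B.verts) ∧ (∃ v, v ∈ B.verts ∧ v ∉ A.verts) ∧
    (A.verts ∩ B.verts).ncard ≤ 2

theorem inter_eq : A.verts ∩ B.verts = (({1, 2} : Finset (Fin 5)) : Set (Fin 5)) := by
  ext v
  simp only [A, B, Set.mem_inter_iff, Set.mem_ofPred_eq]
  revert v
  decide

theorem sup_eq : A ⊔ B = ⊤ := by
  ext u v
  · simp only [A, B, SimpleGraph.Subgraph.verts_sup, Set.mem_union, Set.mem_ofPred_eq,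
      SimpleGraph.Subgraph.verts_top, Set.mem_univ, iff_true]
    revert u
    decide
  · simp only [A, B, SimpleGraph.Subgraph.sup_adj, SimpleGraph.Subgraph.top_adj]
    revert u v
    decide

theorem disj : ∀ u v, A.Adj u v → ¬ B.Adj u v := by
  intro u v h1 h2
  rcases h2.2 with h | h
  · exact h1.2.1 h
  · exact h1.2.2 h

theorem sepAB : SepAB A B := by
  refine ⟨sup_eq, disj, ⟨3, ?_, ?_⟩, ⟨0, ?_, ?_⟩, ?_⟩
  · simp [A]
  · simp only [B, Set.mem_ofPred_eq]
    decide
  · simp [B]
  · simp [A]
  · rw [inter_eq, Set.ncard_coe_finset]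
    decide

theorem sepBA : SepAB B A := by
  refine ⟨by rw [sup_comm]; exact sup_eq, fun u v h1 h2 => disj u v h2 h1, sepAB.2.2.2.1,
    sepAB.2.2.1, ?_⟩
  rw [Set.inter_comm]
  exact sepAB.2.2.2.2

theorem exists_flap : ∃ f : ℕ, 2 ≤ f ∧
      ((∃ A B : H.Subgraph, A ⊔ B = ⊤ ∧ (∀ u v, A.Adj u v → ¬ B.Adj u v) ∧
            (∃ v, v ∈ A.verts ∧ v ∉ B.verts) ∧ (∃ v, v ∈ B.verts ∧ v ∉ A.verts) ∧
            (A.verts ∩ B.verts).ncard ≤ 2) ∧
         IsGreatest {m : ℕ | ∃ A B : Fin m → H.Subgraph,
            (∀ i, A i ⊔ B i = ⊤ ∧ (∀ u v, (A i).Adj u v → ¬ (B i).Adj u v) ∧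
              (∃ v, v ∈ (A i).verts ∧ v ∉ (B i).verts) ∧
              (∃ v, v ∈ (B i).verts ∧ v ∉ (A i).verts) ∧
              ((A i).verts ∩ (B i).verts).ncard ≤ 2) ∧
            ∀ i j, i ≠ j →
              (∀ u v, (A i).Adj u v → ¬ (A j).Adj u v) ∧
              ∀ v, v ∈ (A i).verts → v ∉ (B i).verts →
                ¬ (v ∈ (A j).verts ∧ v ∉ (B j).verts)} f) := by
  set S : Set ℕ := {m : ℕ | ∃ A B : Fin m → H.Subgraph,
            (∀ i, A i ⊔ B i = ⊤ ∧ (∀ u v, (A i).Adj u v → ¬ (B i).Adj u v) ∧
              (∃ v, v ∈ (A i).verts ∧ v ∉ (B i).verts) ∧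
              (∃ v, v ∈ (B i).verts ∧ v ∉ (A i).verts) ∧
              ((A i).verts ∩ (B i).verts).ncard ≤ 2) ∧
            ∀ i j, i ≠ j →
              (∀ u v, (A i).Adj u v → ¬ (A j).Adj u v) ∧
              ∀ v, v ∈ (A i).verts → v ∉ (B i).verts →
                ¬ (v ∈ (A j).verts ∧ v ∉ (B j).verts)} with hS
  have hbdd : BddAbove S := by
    refine ⟨5, ?_⟩
    rintro m ⟨A, B, h1, h2⟩
    have h3 : ∀ i, ∃ v, v ∈ (A i).verts ∧ v ∉ (B i).verts := fun i => (h1 i).2.2.1
    choose g hg using h3
    have hinj : Function.Injective g := by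
      intro i j hij
      by_contra hne
      refine (h2 i j hne).2 (g i) (hg i).1 (hg i).2 ?_
      rw [hij]
      exact hg j
    simpa using Fintype.card_le_of_injective g hinj
  have h2 : 2 ∈ S := by
    refine ⟨![A, B], ![B, A], ?_, ?_⟩
    · intro i
      fin_cases i
      · exact sepAB
      · exact sepBA
    · intro i j hij
      fin_cases i <;> fin_cases j
      · exact absurd rfl hij
      · exact ⟨disj, fun v h1 _ h3 => h3.2 h1⟩
      · exact ⟨fun u v h1 h2 => disj u v h2 h1, fun v h1 _ h3 => h3.2 h1⟩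
      · exact absurd rfl hij
  exact ⟨sSup S, le_csSup hbdd h2, ⟨A, B, sepAB⟩, Nat.sSup_mem ⟨2, h2⟩ hbdd,
    fun m hm => le_csSup hbdd hm⟩

/-- a degeneracy ordering -/
theorem exists_rank {V : Type*} [DecidableEq V] (G : SimpleGraph V) (k : ℕ)
    (hG : ∀ S : Finset V, S.Nonempty → ∃ v ∈ S, {w : V | w ∈ S ∧ G.Adj v w}.ncard ≤ k)
    (m : ℕ) : ∀ S : Finset V, S.card = m → ∃ r : V → ℕ, (∀ x ∈ S, r x < m) ∧
      (∀ x ∈ S, ∀ y ∈ S, r x = r y → x = y) ∧
      ∀ x ∈ S, {y : V | y ∈ S ∧ G.Adj x y ∧ r y < r x}.ncard ≤ k := by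
  induction m with
  | zero =>
    intro S hS
    rw [Finset.card_eq_zero] at hS
    subst hS
    exact ⟨fun _ => 0, by simp, by simp, by simp⟩
  | succ m ih =>
    intro S hS
    have hne : S.Nonempty := by
      rw [← Finset.card_pos]; omega
    obtain ⟨v, hv, hvk⟩ := hG S hne
    obtain ⟨r, h1, h2, h3⟩ := ih (S.erase v) (by rw [Finset.card_erase_of_mem hv]; omega)
    refine ⟨Function.update r v m, ?_, ?_, ?_⟩
    · intro x hx
      by_cases hxv : x = v
      · subst hxv; simp
      · rw [Function.update_of_ne hxv]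
        have := h1 x (Finset.mem_erase.2 ⟨hxv, hx⟩)
        omega
    · intro x hx y hy hxy
      by_cases hxv : x = v
      · by_cases hyv : y = v
        · rw [hxv, hyv]
        · subst hxv
          rw [Function.update_self, Function.update_of_ne hyv] at hxy
          have := h1 y (Finset.mem_erase.2 ⟨hyv, hy⟩)
          omega
      · by_cases hyv : y = v
        · subst hyv
          rw [Function.update_self, Function.update_of_ne hxv] at hxy
          have := h1 x (Finset.mem_erase.2 ⟨hxv, hx⟩)
          omega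
        · rw [Function.update_of_ne hxv, Function.update_of_ne hyv] at hxy
          exact h2 x (Finset.mem_erase.2 ⟨hxv, hx⟩) y (Finset.mem_erase.2 ⟨hyv, hy⟩) hxy
    · intro x hx
      by_cases hxv : x = v
      · subst hxv
        refine le_trans (Set.ncard_le_ncard ?_ ?_) hvk
        · rintro y ⟨hy1, hy2, -⟩
          exact ⟨hy1, hy2⟩
        · exact (Finset.finite_toSet S).subset (fun y hy => hy.1)
      · refine le_trans (Set.ncard_le_ncard ?_ ?_) (h3 x (Finset.mem_erase.2 ⟨hxv, hx⟩))
        · rintro y ⟨hy1, hy2, hy3⟩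
          have hyv : y ≠ v := by
            rintro rfl
            rw [Function.update_self, Function.update_of_ne hxv] at hy3
            have := h1 x (Finset.mem_erase.2 ⟨hxv, hx⟩)
            omega
          rw [Function.update_of_ne hxv, Function.update_of_ne hyv] at hy3
          exact ⟨Finset.mem_erase.2 ⟨hyv, hy1⟩, hy2, hy3⟩
        · exact (Finset.finite_toSet (S.erase v)).subset (fun y hy => hy.1)

section Count

variable {n : ℕ} (out : Fin n → Finset (Fin n))

/-- vertices reachable in at most `m` steps -/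
def reach (x : Fin n) : ℕ → Finset (Fin n)
  | 0 => {x}
  | m + 1 => reach x m ∪ (reach x m).biUnion out

theorem reach_card (hout : ∀ x, (out x).card ≤ 2) (x : Fin n) (m : ℕ) :
    (reach out x m).card ≤ 3 ^ m := by
  induction m with
  | zero => simp [reach]
  | succ m ih =>
    calc (reach out x (m + 1)).card
        ≤ (reach out x m).card + ((reach out x m).biUnion out).card := card_union_le _ _
      _ ≤ (reach out x m).card + (reach out x m).card * 2 := by
          gcongr
          exact card_biUnion_le_card_mul _ _ _ (fun y _ => hout y)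
      _ ≤ 3 ^ (m + 1) := by rw [pow_succ]; omega

theorem reach_mono (x : Fin n) {m m' : ℕ} (h : m ≤ m') : reach out x m ⊆ reach out x m' := by
  induction h with
  | refl => exact Subset.rfl
  | step h ih => exact ih.trans subset_union_left

end Count

theorem deg_three : ∀ i : Fin 5, i ≠ 0 → 3 ≤ (univ.filter (fun j => H.Adj i j)).card := by
  decide

theorem count_le (n : ℕ) (G : SimpleGraph (Fin n))
    (hG : ∀ S : Finset (Fin n), S.Nonempty → ∃ v ∈ S, {w : Fin n | w ∈ S ∧ G.Adj v w}.ncard ≤ 2) :
    {φ : Fin 5 ↪ Fin n | ∀ u v, H.Adj u v → G.Adj (φ u) (φ v)}.ncard ≤ n * 81 ^ 5 := by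
  classical
  obtain ⟨r, -, hr2, hr3⟩ := exists_rank G 2 hG _ (univ : Finset (Fin n)) rfl
  set out : Fin n → Finset (Fin n) := fun x => univ.filter (fun y => G.Adj x y ∧ r y < r x)
    with hout
  have hcard : ∀ x, (out x).card ≤ 2 := by
    intro x
    have := hr3 x (mem_univ x)
    rw [← Set.ncard_coe_finset]
    convert this using 2
    ext y
    simp [hout]
  -- every image lies in the reach of the image of `0`
  have hreach : ∀ φ : Fin 5 ↪ Fin n, (∀ u v, H.Adj u v → G.Adj (φ u) (φ v)) →
      ∀ i, φ i ∈ reach out (φ 0) 4 := by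
    intro φ hφ
    -- parents
    have hpar : ∀ i : Fin 5, i ≠ 0 → ∃ j, r (φ i) < r (φ j) ∧ φ i ∈ out (φ j) := by
      intro i hi
      by_contra hcon
      push Not at hcon
      have hsub : (univ.filter (fun j => H.Adj i j)).map φ ⊆ out (φ i) := by
        intro y hy
        rw [mem_map] at hy
        obtain ⟨j, hj, rfl⟩ := hy
        rw [mem_filter] at hj
        have hadj := hφ i j hj.2
        rw [hout, mem_filter]
        refine ⟨mem_univ _, hadj, ?_⟩
        by_contra hlt
        push Not at hlt
        have hne : r (φ i) ≠ r (φ j) := by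
          intro h
          exact hadj.ne (hr2 _ (mem_univ _) _ (mem_univ _) h)
        have hlt' : r (φ i) < r (φ j) := by omega
        refine hcon j hlt' ?_
        rw [hout, mem_filter]
        exact ⟨mem_univ _, hadj.symm, hlt'⟩
      have h1 := card_le_card hsub
      rw [card_map] at h1
      have h2 := deg_three i hi
      have h3 := hcard (φ i)
      omega
    -- the set of vertices reached
    have hT : ∀ m : ℕ, m ≤ 4 →
        m + 1 ≤ (univ.filter (fun i : Fin 5 => φ i ∈ reach out (φ 0) m)).card := by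
      intro m
      induction m with
      | zero =>
        intro _
        rw [Nat.zero_add, Nat.succ_le_iff, card_pos]
        exact ⟨0, by simp [reach]⟩
      | succ m ih =>
        intro hm
        have ih' := ih (by omega)
        set T := univ.filter (fun i : Fin 5 => φ i ∈ reach out (φ 0) m) with hTdef
        set T' := univ.filter (fun i : Fin 5 => φ i ∈ reach out (φ 0) (m + 1)) with hT'def
        have hTT : T ⊆ T' := by
          intro i hi
          rw [hTdef, mem_filter] at hi
          rw [hT'def, mem_filter]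
          exact ⟨mem_univ _, reach_mono out _ (Nat.le_succ m) hi.2⟩
        by_cases hfull : T = univ
        · have : T' = univ := by
            apply eq_univ_of_forall
            intro i
            apply hTT
            rw [hfull]
            exact mem_univ i
          rw [this, card_univ, Fintype.card_fin]
          omega
        · have hne : (univ \ T).Nonempty := by
            rw [sdiff_nonempty]
            intro h
            exact hfull (eq_univ_of_forall (fun i => h (mem_univ i)))
          obtain ⟨i, hi, hmax⟩ := exists_max_image (univ \ T) (fun i => r (φ i)) hne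
          have hiT : i ∉ T := (mem_sdiff.1 hi).2
          have hi0 : i ≠ 0 := by
            rintro rfl
            apply hiT
            rw [hTdef, mem_filter]
            refine ⟨mem_univ _, reach_mono out _ (Nat.zero_le m) ?_⟩
            simp [reach]
          obtain ⟨j, hj1, hj2⟩ := hpar i hi0
          have hjT : j ∈ T := by
            by_contra hjT
            have := hmax j (mem_sdiff.2 ⟨mem_univ _, hjT⟩)
            omega
          have hiT' : i ∈ T' := by
            rw [hT'def, mem_filter]
            refine ⟨mem_univ _, ?_⟩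
            rw [reach, mem_union]
            right
            rw [mem_biUnion]
            rw [hTdef, mem_filter] at hjT
            exact ⟨φ j, hjT.2, hj2⟩
          have : T.card < T'.card := by
            apply card_lt_card
            rw [ssubset_iff_of_subset hTT]
            exact ⟨i, hiT', hiT⟩
          omega
    have h4 := hT 4 le_rfl
    have h5 : (univ.filter (fun i : Fin 5 => φ i ∈ reach out (φ 0) 4)) = univ := by
      apply eq_univ_of_card
      have h6 := card_le_univ (univ.filter (fun i : Fin 5 => φ i ∈ reach out (φ 0) 4))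
      rw [Fintype.card_fin] at h6 ⊢
      omega
    intro i
    have h6 : i ∈ (univ.filter (fun i : Fin 5 => φ i ∈ reach out (φ 0) 4)) := by
      rw [h5]; exact mem_univ i
    exact (mem_filter.1 h6).2
  -- counting
  set F : Finset (Fin 5 → Fin n) :=
    (univ : Finset (Fin n)).biUnion (fun x => Fintype.piFinset (fun _ : Fin 5 => reach out x 4))
    with hF
  have hFcard : F.card ≤ n * 81 ^ 5 := by
    calc F.card ≤ (univ : Finset (Fin n)).card * 81 ^ 5 := by
          apply card_biUnion_le_card_mul
          intro x _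
          rw [Fintype.card_piFinset]
          simp only [prod_const, card_univ, Fintype.card_fin]
          exact Nat.pow_le_pow_left (by simpa using reach_card out hcard x 4) 5
      _ = n * 81 ^ 5 := by rw [card_univ, Fintype.card_fin]
  refine le_trans ?_ hFcard
  rw [← Set.ncard_coe_finset]
  apply Set.ncard_le_ncard_of_injOn (fun φ : Fin 5 ↪ Fin n => (φ : Fin 5 → Fin n))
  · intro φ hφ
    rw [hF]
    simp only [coe_biUnion, Set.mem_iUnion, Finset.mem_coe, mem_univ, Fintype.mem_piFinset]
    exact ⟨φ 0, trivial, fun i => hreach φ hφ i⟩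
  · intro φ _ ψ _ h
    exact DFunLike.coe_injective h

end Pool.Agent.P8H55.Degen
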